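import Pool.Agent.S08224

set_option autoImplicit false

namespace Pool.Agent.Results.MP_1f0dde_co.NotPeriodic

open Pool.Agent.S08224

/-- There is a finite two-dimensional subtraction ruleset `S` whose P-positions (the unique
predicate `P` obeying the normal-play recursion) are not eventually periodic along some line
`y = p x + m` of positive integer slope. -/
theorem result : ∃ S : Finset (ℕ × ℕ), (0, 0) ∉ S ∧ ∃ P : ℕ → ℕ → Prop,
    (∀ x y : ℕ, P x y ↔ ∀ s ∈ S, s.1 ≤ x → s.2 ≤ y → ¬ P (x - s.1) (y - s.2)) ∧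
    ∃ p m : ℕ, 0 < p ∧ ¬ ∃ T x' : ℕ, 0 < T ∧
      ∀ x : ℕ, x' ≤ x → (P x (p * x + m) ↔ P (x + T) (p * (x + T) + m)) := by
  refine ⟨(C0.map fun c => ((0, c) : ℕ × ℕ)).toFinset ∪ (C1.map fun c => ((1, c) : ℕ × ℕ)).toFinset,
    by decide, fun x y => Q x y = true, ?_, 84, 157, by norm_num, ?_⟩
  · intro x y
    beta_reduce
    rw [Q_rec]
    simp only [Finset.mem_union, List.mem_toFinset, List.mem_map, Bool.not_eq_true]
    constructor
    · rintro ⟨h0, h1⟩ s (⟨c, hc, rfl⟩ | ⟨c, hc, rfl⟩) ha hb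
      · exact h0 c hc hb
      · exact h1 c hc ha hb
    · intro h
      exact ⟨fun c hc hb => h (0, c) (Or.inl ⟨c, hc, rfl⟩) (Nat.zero_le _) hb,
        fun c hc ha hb => h (1, c) (Or.inr ⟨c, hc, rfl⟩) ha hb⟩
  · rintro ⟨p, k, hp, hk⟩
    have hb : k + p + 2 < 2 ^ (k + p + 2) := Nat.lt_two_pow_self
    have h3 := hk (2 ^ (k + p + 2) - 2) (by omega)
    simp only [Q_line] at h3
    have h4 : ∃ a, 2 ^ (k + p + 2) - 2 + 2 = 2 ^ a := ⟨k + p + 2, by omega⟩
    obtain ⟨a, ha⟩ := not_not.1 (fun hh => h3.2 hh h4)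
    have h5 : 2 ^ (k + p + 2) < 2 ^ a := by omega
    have h6 : 2 ^ a < 2 ^ (k + p + 2 + 1) := by rw [pow_succ]; omega
    rw [Nat.pow_lt_pow_iff_right (by norm_num)] at h5 h6
    omega

end Pool.Agent.Results.MP_1f0dde_co.NotPeriodic
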